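import Pool.Agent.H24.Urn2

open MeasureTheory

namespace Pool.Agent.Results.MP_0b3b8e_pr.Cex

open Pool.Agent.H24.Urn

theorem result : ∃ (d : ℕ) (V : ℕ → ℝ) (B₀ R₀ : Fin d → ℕ), 2 ≤ d ∧ (∀ n, 0 ≤ V n) ∧
    (∀ n, 1 ≤ n → 0 < V n) ∧ Summable (fun n : ℕ => 1 / V (n + 1)) ∧
    1 ≤ ∑ i, B₀ i + ∑ i, R₀ i ∧ IsProbabilityMeasure (law d) ∧
    law d {ω | Mono (proc V (B₀, R₀) ω)} ≤ 1 / 2 := by
  refine ⟨5, W, fun _ => 10 ^ 23, fun _ => 10 ^ 23, by norm_num, fun n => ?_,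
    fun n hn => W_pos hn, W_strong, by norm_num, law_prob 5,
    (measure_mono fun ω h => mono_sub ω h).trans exit_le⟩
  unfold W; split_ifs <;> positivity

end Pool.Agent.Results.MP_0b3b8e_pr.Cex
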